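import Pool.Agent.Helper29.GW.Defs
import Pool.Agent.Helper29.MW.TyTW

/-!
# Guarded second-order types: auxiliary definitions

At each level a set of elements and a subrelation of every relation are chosen: `fI I A R` expands the
structure `(M, I)` by the set `A` and the subrelations `R`.
-/

set_option autoImplicit false

namespace Pool.Agent.Helper29.GW

open Pool.Agent.Helper20.Spectra Pool.Agent.Helper29.TD

/-- the arities after adding a unary relation and a copy of every relation -/
def fAr {S : Type} (ar : S → ℕ) : Option (S ⊕ S) → ℕ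
  | none => 1
  | some (Sum.inl s) => ar s
  | some (Sum.inr s) => ar s

/-- the expansion of an interpretation by the set `A` and the relations `R` -/
def fI {S : Type} {ar : S → ℕ} {M : Type} (I : Interp S ar M) (A : Set M) (R : Interp S ar M) :
    Interp (Option (S ⊕ S)) (fAr ar) M
  | none => fun v : Fin 1 → M => v 0 ∈ A
  | some (Sum.inl s) => fun v => I s v
  | some (Sum.inr s) => fun v => R s v

/-- all relations of `R` are contained in those of `I` -/
def SubI {S : Type} {ar : S → ℕ} {M : Type} (R I : Interp S ar M) : Prop := ∀ s v, R s v → I s v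

/-- first `n` times a set and subrelations are chosen, then `q` elements -/
def GEq : (n q : ℕ) → {S : Type} → {ar : S → ℕ} → {M N : Type} → Interp S ar M → Interp S ar N → Prop
  | 0, q, _, _, _, _, I, J => BF I J Set.univ Set.univ q ∅
  | n + 1, q, _, _, _, _, I, J =>
      (∀ A R, SubI R I → ∃ B T, SubI T J ∧ GEq n q (fI I A R) (fI J B T)) ∧
      ∀ B T, SubI T J → ∃ A R, SubI R I ∧ GEq n q (fI I A R) (fI J B T)

/-- guarded second-order types of `k` elements -/
def GTy : (n : ℕ) → (S : Type) → (ar : S → ℕ) → (q k : ℕ) → Type
  | 0, S, ar, q, k => Ty S ar q k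
  | n + 1, S, ar, q, k => Set (GTy n (Option (S ⊕ S)) (fAr ar) q k)

/-- the guarded second-order type of the sources; the sets are subsets of the active sources and the
inner elements -/
def gty : (n q : ℕ) → {S : Type} → {ar : S → ℕ} → {K : ℕ} → {V : Type} → Finset (Fin K) →
    Interp S ar (Fin K ⊕ V) → GTy n S ar q K
  | 0, q, _, _, _, _, _, J => TW.ty q J
  | n + 1, q, S, ar, K, V, B, J =>
      {t | ∃ c : Set (Fin K ⊕ V) × Interp S ar (Fin K ⊕ V),
        (c.1 ⊆ TW.mk (↑B) Set.univ ∧ SubI c.2 J) ∧ gty n q B (fI J c.1 c.2) = t}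

end Pool.Agent.Helper29.GW
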