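import Pool.Agent.Helper29.CW.Width

/-!
# Spectra of second-order sentences whose models have small width: definitions

The logics MSO (quantifiers over elements and over sets of elements) and MSO₂ (also quantifiers over
the subsets of each relation).
-/

set_option autoImplicit false

namespace Pool.Agent.Helper29.GW

open Pool.Agent.Helper20.Spectra Pool.Agent.Helper29.TD Pool.Agent.Helper29.CW

/-- the arities after adding a relation symbol `none` of arity `r` -/
def adAr {S : Type} (ar : S → ℕ) (r : ℕ) : Option S → ℕ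
  | none => r
  | some s => ar s

/-- the expansion of the structure `(M, I)` by the relation `R` -/
def adI {S : Type} {ar : S → ℕ} {M : Type} {r : ℕ} (I : Interp S ar M) (R : (Fin r → M) → Prop) :
    Interp (Option S) (adAr ar r) M
  | none => R
  | some s => I s

/-- The formulas of MSO₂ in the relation symbols `S` with the arities `ar`, with the `k` free
element variables `0, ..., k - 1`. A quantifier over sets of elements, or over the subsets of a
relation, adds the new relation symbol `none` to the vocabulary. -/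
inductive GFm : (S : Type) → (S → ℕ) → ℕ → Type 1
  | eq {S : Type} {ar : S → ℕ} {k : ℕ} (i j : Fin k) : GFm S ar k
  | rel {S : Type} {ar : S → ℕ} {k : ℕ} (s : S) (f : Fin (ar s) → Fin k) : GFm S ar k
  | not {S : Type} {ar : S → ℕ} {k : ℕ} (φ : GFm S ar k) : GFm S ar k
  | and {S : Type} {ar : S → ℕ} {k : ℕ} (φ ψ : GFm S ar k) : GFm S ar k
  | ex {S : Type} {ar : S → ℕ} {k : ℕ} (φ : GFm S ar (k + 1)) : GFm S ar k
  | exSet {S : Type} {ar : S → ℕ} {k : ℕ} (φ : GFm (Option S) (adAr ar 1) k) : GFm S ar k
  | exSub {S : Type} {ar : S → ℕ} {k : ℕ} (s : S) (φ : GFm (Option S) (adAr ar (ar s)) k) :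
      GFm S ar k

/-- Truth of `φ` in the structure `(M, I)`: `eq i j` says that the elements `i` and `j` are equal,
`rel s f` that the tuple of the elements `f 0, f 1, ...` is in the relation `s`; `ex` quantifies a new
element variable `0` over `M`, `exSet` the new unary relation `none` over all sets of elements, and
`exSub s` the new relation `none` over all subsets of the relation `s`. -/
def GFm.Holds : {S : Type} → {ar : S → ℕ} → {k : ℕ} → GFm S ar k → {M : Type} → Interp S ar M →
    (Fin k → M) → Prop
  | _, _, _, .eq i j, _, _, v => v i = v j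
  | _, _, _, .rel s f, _, I, v => I s (fun i => v (f i))
  | _, _, _, .not φ, _, I, v => ¬ φ.Holds I v
  | _, _, _, .and φ ψ, _, I, v => φ.Holds I v ∧ ψ.Holds I v
  | _, _, _, .ex φ, M, I, v => ∃ x : M, φ.Holds I (Fin.cons x v)
  | _, _, _, .exSet φ, M, I, v => ∃ X : (Fin 1 → M) → Prop, φ.Holds (adI I X) v
  | _, ar, _, .exSub s φ, M, I, v => ∃ R : (Fin (ar s) → M) → Prop, (∀ u, R u → I s u) ∧
      φ.Holds (adI I R) v

/-- the formulas of MSO: there are no quantifiers over the subsets of relations -/
def GFm.Mon : {S : Type} → {ar : S → ℕ} → {k : ℕ} → GFm S ar k → Prop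
  | _, _, _, .eq _ _ => True
  | _, _, _, .rel _ _ => True
  | _, _, _, .not φ => φ.Mon
  | _, _, _, .and φ ψ => φ.Mon ∧ ψ.Mon
  | _, _, _, .ex φ => φ.Mon
  | _, _, _, .exSet φ => φ.Mon
  | _, _, _, .exSub _ _ => False

/-- the sentence `φ` holds in `(M, I)` -/
def GSat {S : Type} {ar : S → ℕ} {M : Type} (I : Interp S ar M) (φ : GFm S ar 0) : Prop :=
  φ.Holds I Fin.elim0

/-- `A` is the spectrum of an MSO₂ sentence `φ` in finitely many relation symbols, of an MSO sentence
if `mon` is `true`, and of an MSO sentence in relation symbols of arity at most `2` in the case of the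
clique-width, such that all models of `φ` with `n` elements have width at most `w n` -/
def WSpectrum (mon : Bool) (μ : Width) (w : ℕ → ℕ) (A : Set ℕ) : Prop :=
  ∃ (S : Type) (_ : Finite S) (ar : S → ℕ) (φ : GFm S ar 0), (mon = true → φ.Mon) ∧
    (μ = Width.clique → φ.Mon ∧ ∀ s, ar s ≤ 2) ∧
    (∀ (n : ℕ) (I : Interp S ar (Fin n)), 1 ≤ n → GSat I φ → WidthLe μ I (w n)) ∧
    ∀ n : ℕ, n ∈ A ↔ (1 ≤ n ∧ ∃ I : Interp S ar (Fin n), GSat I φ)

end Pool.Agent.Helper29.GW
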