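import Pool.Agent.Helper29.GW.Base

/-!
# The game with sets and subrelations: basic lemmas
-/

set_option autoImplicit false

namespace Pool.Agent.Helper29.GW

open Pool.Agent.Helper20.Spectra Pool.Agent.Helper29.TD Pool.Agent.Helper29.MW

lemma GEq.symm : ∀ (n q : ℕ) {S : Type} {ar : S → ℕ} {M N : Type} {I : Interp S ar M}
    {J : Interp S ar N}, GEq n q I J → GEq n q J I := by
  intro n
  induction n with
  | zero =>
    intro q S ar M N I J h
    exact bf_symm q h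
  | succ n ih =>
    intro q S ar M N I J h
    refine ⟨fun B T hT => ?_, fun A R hR => ?_⟩
    · obtain ⟨A, R, hR, h1⟩ := h.2 B T hT
      exact ⟨A, R, hR, ih q h1⟩
    · obtain ⟨B, T, hT, h1⟩ := h.1 A R hR
      exact ⟨B, T, hT, ih q h1⟩

/-- the relations pushed along a map of the symbols -/
def pushI {S₀ S₁ : Type} {ar₀ : S₀ → ℕ} {ar₁ : S₁ → ℕ} {M : Type} (τ : S₀ → S₁)
    (h : ∀ s, ar₀ s = ar₁ (τ s)) (R : Interp S₀ ar₀ M) : Interp S₁ ar₁ M :=
  fun t u => ∃ (s : S₀) (e : τ s = t), R s (fun i => u (Fin.cast ((h s).trans (congrArg ar₁ e)) i))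

/-- the relations pulled back along a map of the symbols -/
def pullI {S₀ S₁ : Type} {ar₀ : S₀ → ℕ} {ar₁ : S₁ → ℕ} {M : Type} (τ : S₀ → S₁)
    (h : ∀ s, ar₀ s = ar₁ (τ s)) (R : Interp S₁ ar₁ M) : Interp S₀ ar₀ M :=
  fun s v => R (τ s) (fun i => v (Fin.cast (h s).symm i))

section

variable {S₀ S₁ : Type} {ar₀ : S₀ → ℕ} {ar₁ : S₁ → ℕ} {M : Type} {τ : S₀ → S₁}
  {h : ∀ s, ar₀ s = ar₁ (τ s)}

lemma red_pull (R : Interp S₁ ar₁ M) : IsRed τ h (pullI τ h R) R := fun _ _ => Iff.rfl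

lemma red_push (hτ : Function.Injective τ) (R : Interp S₀ ar₀ M) : IsRed τ h R (pushI τ h R) := by
  intro s v
  constructor
  · intro h1
    exact ⟨s, rfl, h1⟩
  · rintro ⟨s', e, h1⟩
    have e' : s' = s := hτ e
    subst e'
    exact h1

lemma sub_pull {R I₁ : Interp S₁ ar₁ M} {I₀ : Interp S₀ ar₀ M} (hI : IsRed τ h I₀ I₁)
    (hR : SubI R I₁) : SubI (pullI τ h R) I₀ :=
  fun s v h1 => (hI s v).2 (hR _ _ h1)

lemma sub_push {I₁ : Interp S₁ ar₁ M} {I₀ R : Interp S₀ ar₀ M} (hI : IsRed τ h I₀ I₁)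
    (hR : SubI R I₀) : SubI (pushI τ h R) I₁ := by
  rintro t u ⟨s, e, h1⟩
  subst e
  exact (hI s _).1 (hR _ _ h1)

lemma fAr_map (τ : S₀ → S₁) (h : ∀ s, ar₀ s = ar₁ (τ s)) :
    ∀ s, fAr ar₀ s = fAr ar₁ (Option.map (Sum.map τ τ) s)
  | none => rfl
  | some (Sum.inl s) => h s
  | some (Sum.inr s) => h s

lemma IsRed.fI {I₀ : Interp S₀ ar₀ M} {I₁ : Interp S₁ ar₁ M} (hI : IsRed τ h I₀ I₁) (A : Set M)
    {R₀ : Interp S₀ ar₀ M} {R₁ : Interp S₁ ar₁ M} (hR : IsRed τ h R₀ R₁) :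
    IsRed (Option.map (Sum.map τ τ)) (fAr_map τ h) (fI I₀ A R₀) (fI I₁ A R₁)
  | none, _ => Iff.rfl
  | some (Sum.inl s), v => hI s v
  | some (Sum.inr s), v => hR s v

end

lemma GEq.red (n q : ℕ) : ∀ {S₀ S₁ : Type} {ar₀ : S₀ → ℕ} {ar₁ : S₁ → ℕ} {M N : Type} (τ : S₀ → S₁)
    (_ : Function.Injective τ) (h : ∀ s, ar₀ s = ar₁ (τ s)) {I₀ : Interp S₀ ar₀ M}
    {I₁ : Interp S₁ ar₁ M} {J₀ : Interp S₀ ar₀ N} {J₁ : Interp S₁ ar₁ N}, IsRed τ h I₀ I₁ →
    IsRed τ h J₀ J₁ → GEq n q I₁ J₁ → GEq n q I₀ J₀ := by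
  induction n with
  | zero =>
    intro S₀ S₁ ar₀ ar₁ M N τ hτ h I₀ I₁ J₀ J₁ hI hJ he
    exact bf_red τ h hI hJ q he
  | succ n ih =>
    intro S₀ S₁ ar₀ ar₁ M N τ hτ h I₀ I₁ J₀ J₁ hI hJ he
    have hτ' : Function.Injective (Option.map (Sum.map τ τ)) :=
      Option.map_injective (hτ.sumMap hτ)
    refine ⟨fun A R hR => ?_, fun B T hT => ?_⟩
    · obtain ⟨B, T, hT, h1⟩ := he.1 A _ (sub_push hI hR)
      exact ⟨B, pullI τ h T, sub_pull hJ hT, ih _ hτ' (fAr_map τ h) (IsRed.fI hI A (red_push hτ R))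
        (IsRed.fI hJ B (red_pull T)) h1⟩
    · obtain ⟨A, R, hR, h1⟩ := he.2 B _ (sub_push hJ hT)
      exact ⟨A, pullI τ h R, sub_pull hI hR, ih _ hτ' (fAr_map τ h) (IsRed.fI hI A (red_pull R))
        (IsRed.fI hJ B (red_push hτ T)) h1⟩

lemma sub_bot {S : Type} {ar : S → ℕ} {M : Type} (I : Interp S ar M) :
    SubI (fun _ _ => False : Interp S ar M) I := fun _ _ h => h.elim

lemma inl_inj {S : Type} : Function.Injective (fun s : S => (some (Sum.inl s) : Option (S ⊕ S))) :=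
  fun _ _ h => Sum.inl_injective (Option.some.inj h)

lemma GEq.pred (n q : ℕ) {S : Type} {ar : S → ℕ} {M N : Type} {I : Interp S ar M}
    {J : Interp S ar N} (h : GEq (n + 1) q I J) : GEq n q I J := by
  obtain ⟨B, T, -, h1⟩ := h.1 ∅ _ (sub_bot I)
  exact GEq.red n q (fun s => some (Sum.inl s)) inl_inj (fun _ => rfl) (fun _ _ => Iff.rfl)
    (fun _ _ => Iff.rfl) h1

lemma GEq.mono_q : ∀ (n : ℕ) {q q' : ℕ} (_ : q' ≤ q) {S : Type} {ar : S → ℕ} {M N : Type}
    {I : Interp S ar M} {J : Interp S ar N}, GEq n q I J → GEq n q' I J := by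
  intro n
  induction n with
  | zero =>
    intro q q' hq S ar M N I J h
    exact BF.mono hq h
  | succ n ih =>
    intro q q' hq S ar M N I J h
    refine ⟨fun A R hR => ?_, fun B T hT => ?_⟩
    · obtain ⟨B, T, hT, h1⟩ := h.1 A R hR
      exact ⟨B, T, hT, ih hq h1⟩
    · obtain ⟨A, R, hR, h1⟩ := h.2 B T hT
      exact ⟨A, R, hR, ih hq h1⟩

lemma GEq.mono {n n' q q' : ℕ} (hn : n' ≤ n) (hq : q' ≤ q) {S : Type} {ar : S → ℕ} {M N : Type}
    {I : Interp S ar M} {J : Interp S ar N} (h : GEq n q I J) : GEq n' q' I J := by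
  obtain ⟨d, rfl⟩ := Nat.exists_eq_add_of_le hn
  clear hn
  induction d with
  | zero => exact GEq.mono_q _ hq h
  | succ d ih => exact ih (GEq.pred _ _ h)

/-- the symbols of `exI` in `fI` -/
def oτ (S : Type) : Option S → Option (S ⊕ S)
  | none => none
  | some s => some (Sum.inl s)

lemma oτ_inj (S : Type) : Function.Injective (oτ S) := by
  rintro (_ | s) (_ | t) h
  · rfl
  · exact absurd h (by simp [oτ])
  · exact absurd h (by simp [oτ])
  · have h1 : (some (Sum.inl s) : Option (S ⊕ S)) = some (Sum.inl t) := h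
    rw [Sum.inl_injective (Option.some.inj h1)]

lemma oτ_ar {S : Type} (ar : S → ℕ) : ∀ s, exAr ar s = fAr ar (oτ S s)
  | none => rfl
  | some _ => rfl

lemma red_o {S : Type} {ar : S → ℕ} {M : Type} (I : Interp S ar M) (A : Set M) (R : Interp S ar M) :
    IsRed (oτ S) (oτ_ar ar) (exI I A) (fI I A R)
  | none, _ => Iff.rfl
  | some _, _ => Iff.rfl

theorem meq_of_geq (n q : ℕ) : ∀ {S : Type} {ar : S → ℕ} {M N : Type} {I : Interp S ar M}
    {J : Interp S ar N}, GEq n q I J → MEq n q I J := by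
  induction n with
  | zero => exact fun h => h
  | succ n ih =>
    intro S ar M N I J h
    refine ⟨fun A => ?_, fun B => ?_⟩
    · obtain ⟨B, T, -, h1⟩ := h.1 A _ (sub_bot I)
      exact ⟨B, ih (GEq.red n q (oτ S) (oτ_inj S) (oτ_ar ar) (red_o I A _) (red_o J B _) h1)⟩
    · obtain ⟨A, R, -, h1⟩ := h.2 B _ (sub_bot J)
      exact ⟨A, ih (GEq.red n q (oτ S) (oτ_inj S) (oτ_ar ar) (red_o I A _) (red_o J B _) h1)⟩

/-! ### Isomorphisms -/

lemma fI_iso {S : Type} {ar : S → ℕ} {M N : Type} (I : Interp S ar M) (e : M ≃ N) (A : Set M)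
    (R : Interp S ar M) :
    fI (fun s v => I s (fun i => e.symm (v i)) : Interp S ar N) (e '' A)
      (fun s v => R s (fun i => e.symm (v i))) =
      (fun s v => fI I A R s (fun i => e.symm (v i))) := by
  funext s
  rcases s with _ | s | s
  · funext v
    change Fin 1 → N at v
    apply propext
    change v 0 ∈ e '' A ↔ e.symm (v 0) ∈ A
    exact Set.mem_image_equiv
  · rfl
  · rfl

theorem geq_iso (n q : ℕ) : ∀ {S : Type} {ar : S → ℕ} {M N : Type} (I : Interp S ar M) (e : M ≃ N),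
    GEq n q I (fun s v => I s (fun i => e.symm (v i)) : Interp S ar N) := by
  induction n with
  | zero =>
    intro S ar M N I e
    have h1 := BF.emb (I := I) (J := (fun s v => I s (fun i => e.symm (v i)) : Interp S ar N))
      (X := Set.univ) e Set.univ (e.injective.injOn) (fun s v _ => by
        simp only [e.symm_apply_apply]) (Set.subset_univ _) q (P := ∅) (by simp)
    have h2 : (e : M → N) '' Set.univ = Set.univ := by
      rw [Set.image_univ, e.surjective.range_eq]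
    rw [h2] at h1
    exact h1
  | succ n ih =>
    intro S ar M N I e
    refine ⟨fun A R hR => ?_, fun B T hT => ?_⟩
    · refine ⟨e '' A, fun s v => R s (fun i => e.symm (v i)), fun s v h => hR _ _ h, ?_⟩
      rw [fI_iso]
      exact ih _ e
    · refine ⟨e.symm '' B, fun s v => T s (fun i => e (v i)), fun s v h => ?_, ?_⟩
      · have h1 := hT _ _ h
        simp only [e.symm_apply_apply] at h1
        exact h1
      · have h1 := fI_iso I e (e.symm '' B) (fun s v => T s (fun i => e (v i)))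
        have h2 : (fun s v => T s (fun i => e (e.symm (v i))) : Interp S ar N) = T := by
          funext s v
          simp only [e.apply_symm_apply]
        rw [e.image_symm_image, h2] at h1
        rw [h1]
        exact ih _ e

end Pool.Agent.Helper29.GW
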