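import Pool.Agent.Helper29.GW.StTW
import Pool.Agent.Helper29.TW.Tame

/-!
# The tree-width of the structures with an invariant property
-/

set_option autoImplicit false

namespace Pool.Agent.Helper29.GW

open Pool.Agent.Helper20.Spectra Pool.Agent.Helper20.OP Pool.Agent.Helper29.TD
  Pool.Agent.Helper29.TW Pool.Agent.Helper29.MW Filter

variable {S : Type} {ar : S → ℕ}

instance finite_GStt [Finite S] (n q K k : ℕ) : Finite (GStt n S ar q K k) := by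
  unfold GStt
  infer_instance

private lemma card_finset (K : ℕ) : Nat.card (Finset (Fin K)) = 2 ^ K := by
  rw [Nat.card_eq_fintype_card, Fintype.card_finset, Fintype.card_fin]

theorem card_GStt [Finite S] (n q : ℕ) :
    Tow (fun k => Nat.card (GStt n S ar q (6 * (k + 1)) k)) := by
  have hK : Tow (fun k => 6 * (k + 1)) := Tow.mul (Tow.const 6) (Tow.add Tow.id (Tow.const 1))
  have h1 : Tow (fun k => k + 1) := Tow.add Tow.id (Tow.const 1)
  have h5 : Tow (fun k => 5 * k + 1) := Tow.add (Tow.mul (Tow.const 5) Tow.id) (Tow.const 1)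
  have hT : Tow (fun k => Nat.card (GTy n S ar q (6 * (k + 1)))) := tow_comp (card_GTy n q S ar) hK
  have h : (fun k => Nat.card (GStt n S ar q (6 * (k + 1)) k)) = fun k =>
      2 ^ (6 * (k + 1)) * (Nat.card (GTy n S ar q (6 * (k + 1))) * ((5 * k + 1) *
        2 ^ (2 ^ (6 * (k + 1)) * (2 ^ (6 * (k + 1)) * ((k + 1) * ((5 * k + 1) * (5 * k + 1))))))) := by
    funext k
    rw [Nat.card_prod, Nat.card_prod, Nat.card_prod, card_finset, Nat.card_fin, card_set, Nat.card_prod,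
      Nat.card_prod, Nat.card_prod, Nat.card_prod, card_set, Nat.card_fin, Nat.card_fin, Nat.card_fin]
  rw [h]
  exact Tow.mul hK.two_pow (Tow.mul hT (Tow.mul h5 (Tow.two_pow (Tow.mul hK.two_pow (Tow.mul hK.two_pow
    (Tow.mul h1 (Tow.mul h5 h5)))))))

theorem gpump_down [Finite S] (n q : ℕ) : ∃ F : ℕ → ℕ, Tow F ∧ ∀ (k : ℕ) (V : Type)
    (J : Interp S ar (Fin (6 * (k + 1)) ⊕ V)) (W : Set V), Gen S ar (6 * (k + 1)) ∅ V J →
    Linked (inn J) k W → ∃ (V' : Type) (J' : Interp S ar (Fin (6 * (k + 1)) ⊕ V')) (W' : Set V'),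
      Gen S ar (6 * (k + 1)) ∅ V' J' ∧ gty n q ∅ J' = gty n q ∅ J ∧ Linked (inn J') k W' ∧
      Nat.card V' ≤ F k := by
  refine ⟨fun k => 2 ^ Nat.card (GStt n S ar q (6 * (k + 1)) k), (card_GStt n q).two_pow, ?_⟩
  intro k V J W hG hL
  obtain ⟨hW, hL'⟩ := (linked_iff hG k W).1 hL
  obtain ⟨σ, hσ⟩ := exists_gst n q (k := k) ∅ J W hW.le
  obtain ⟨m, hm, hder⟩ := (gder_of_gen hG W σ hσ).small
  obtain ⟨B', V', J', W', hG', hσ', hc⟩ := gen_of_gder hder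
  have hB : B' = ∅ := hσ'.1.symm.trans hσ.1
  subst hB
  have := hG'.finite
  have hW' : W'.ncard = 5 * k := by
    rw [← hσ'.2.2.1, hσ.2.2.1, hW]
  refine ⟨V', J', W', hG', hσ'.2.1.symm.trans hσ.2.1, ?_, ?_⟩
  · rw [linked_iff hG' k W']
    refine ⟨hW', fun c a b hc' hs => ?_⟩
    obtain ⟨ha, hb⟩ := hs.le
    rw [hW'] at ha hb
    have h1 := (hσ'.2.2.2 (Set.univ, Set.univ, ⟨c, by omega⟩, ⟨a, by omega⟩, ⟨b, by omega⟩)).2 hs
    have h2 := (hσ.2.2.2 (Set.univ, Set.univ, ⟨c, by omega⟩, ⟨a, by omega⟩, ⟨b, by omega⟩)).1 h1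
    exact hL' c a b hc' h2
  · rw [hc]
    exact hm.le

theorem gpump_up [Finite S] (n q K : ℕ) : ∃ p N : ℕ, 1 ≤ p ∧ ∀ (V : Type)
    (J : Interp S ar (Fin K ⊕ V)), Gen S ar K ∅ V J → N ≤ Nat.card V →
    ∃ (V' : Type) (J' : Interp S ar (Fin K ⊕ V')), Gen S ar K ∅ V' J' ∧
      gty n q ∅ J' = gty n q ∅ J ∧ Nat.card V' = Nat.card V + p := by
  obtain ⟨p, N, hp, h⟩ := Der.pump (GBSt n S ar q K 0) (GUSt n S ar q K 0) (GJSt n S ar q K 0)
  refine ⟨p, N, hp, fun V J hG hN => ?_⟩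
  obtain ⟨σ, hσ⟩ := exists_gst n q (k := 0) ∅ J (∅ : Set V) (by simp)
  obtain ⟨B', V', J', W', hG', hσ', hc⟩ := gen_of_gder (h σ _ hN (gder_of_gen hG _ σ hσ))
  have hB : B' = ∅ := hσ'.1.symm.trans hσ.1
  subst hB
  exact ⟨V', J', hG', hσ'.2.1.symm.trans hσ.2.1, hc⟩

/-! ### Invariant properties -/

/-- the property `Φ` is invariant under the game -/
def GInv (Φ : ∀ M : Type, Interp S ar M → Prop) (n q : ℕ) : Prop :=
  ∀ (M N : Type) (I : Interp S ar M) (J : Interp S ar N), GEq n q I J → (Φ M I ↔ Φ N J)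

section

variable {Φ : ∀ M : Type, Interp S ar M → Prop} {n₀ q : ℕ}

lemma GInv.gty (hΦ : GInv Φ n₀ q) {K : ℕ} {V V' : Type} {J : Interp S ar (Fin K ⊕ V)}
    {J' : Interp S ar (Fin K ⊕ V')} (h : GW.gty n₀ q ∅ J = GW.gty n₀ q ∅ J') :
    Φ V (inn J) ↔ Φ V' (inn J') :=
  hΦ _ _ _ _ (geq_of_gty n₀ q h)

lemma GInv.inn (hΦ : GInv Φ n₀ q) {K : ℕ} {M V : Type} {I : Interp S ar M}
    {J : Interp S ar (Fin K ⊕ V)} (e : M ≃ V)
    (h : ∀ (s : S) (u : Fin (ar s) → Fin K ⊕ V), J s u ↔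
      ∃ v : Fin (ar s) → M, I s v ∧ u = fun i => Sum.inr (e (v i))) :
    Φ M I ↔ Φ V (TW.inn J) := by
  rw [hΦ _ _ _ _ (geq_iso n₀ q I e)]
  have h1 : (fun s v => I s (fun i => e.symm (v i)) : Interp S ar V) = TW.inn J := by
    funext s v
    apply propext
    change I s (fun i => e.symm (v i)) ↔ J s (fun i => Sum.inr (v i))
    rw [h]
    constructor
    · intro h2
      exact ⟨_, h2, by funext i; rw [e.apply_symm_apply]⟩
    · rintro ⟨w, hw, h3⟩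
      have h4 : (fun i => e.symm (v i)) = w := by
        funext i
        have h5 := congrFun h3 i
        have h6 : v i = e (w i) := Sum.inr_injective h5
        rw [h6, e.symm_apply_apply]
      rw [h4]
      exact hw
  rw [h1]

lemma GInv.fin (hΦ : GInv Φ n₀ q) {K : ℕ} {V : Type} [Finite V] (J : Interp S ar (Fin K ⊕ V))
    (h : Φ V (TW.inn J)) :
    Φ (Fin (Nat.card V)) (fun s v => TW.inn J s (fun i => (Finite.equivFin V).symm (v i))) :=
  (hΦ _ _ _ _ (geq_iso n₀ q (TW.inn J) (Finite.equivFin V))).1 h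

end

/-! ### The gap -/

theorem not_linked_sem [Finite S] (w : ℕ → ℕ) (hw : ∀ d, ∀ᶠ n in atTop, E d (w n) ≤ n)
    (Φ : ∀ M : Type, Interp S ar M → Prop) (n₀ q₀ : ℕ) (hΦ : GInv Φ n₀ q₀) (N1 : ℕ)
    (hφ : ∀ (n : ℕ) (I : Interp S ar (Fin n)), N1 ≤ n → Φ _ I → TwLe I (w n)) :
    ∃ k, 1 ≤ k ∧ ∀ (n : ℕ) (I : Interp S ar (Fin n)), 1 ≤ n → Φ _ I →
      ∀ W : Set (Fin n), ¬ Linked I k W := by
  classical
  obtain ⟨F, ⟨c, hF⟩, hdown⟩ := gpump_down (S := S) (ar := ar) n₀ q₀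
  obtain ⟨N0', hN0'⟩ := eventually_atTop.1 (hw (c + 4))
  obtain ⟨N0, hN0, hN01⟩ : ∃ N0, (∀ n, N0 ≤ n → E (c + 4) (w n) ≤ n) ∧ N1 ≤ N0 :=
    ⟨N0' + N1, fun n hn => hN0' n (by omega), by omega⟩
  by_contra hcon
  push Not at hcon
  obtain ⟨n, I, hn, hI, W₀, hW₀⟩ := hcon (N0 + 1) (by omega)
  have hle : ∀ (k : ℕ) (W : Set (Fin n)), Linked I k W → 5 * k ≤ n := by
    intro k W h
    rw [← h.1]
    have := Set.ncard_le_card W
    simpa using this
  let Q : ℕ → Prop := fun k => ∃ W : Set (Fin n), Linked I k W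
  have h0 : Q (N0 + 1) := ⟨W₀, hW₀⟩
  have hb : N0 + 1 ≤ n := by
    have := hle _ _ hW₀
    omega
  obtain ⟨k, hk, hkQ, hmax⟩ : ∃ k, N0 + 1 ≤ k ∧ Q k ∧ ¬ Q (k + 1) := by
    refine ⟨Nat.findGreatest Q n, Nat.le_findGreatest hb h0, Nat.findGreatest_spec hb h0, ?_⟩
    intro h1
    obtain ⟨W, hW⟩ := h1
    have h2 := hle _ _ hW
    have h3 : Nat.findGreatest Q n + 1 ≤ Nat.findGreatest Q n :=
      Nat.le_findGreatest (by omega) ⟨W, hW⟩
    omega
  obtain ⟨W, hW⟩ := hkQ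
  obtain ⟨C, hC⟩ := up I (k + 1) (by omega) (fun W' h => hmax ⟨W', h⟩)
  obtain ⟨V, J, e, hG, hJ⟩ := gen_of_dec (by omega) hC
  have hinn : inn J = fun s v => I s (fun i => e.symm (v i)) := by
    funext s v
    apply propext
    unfold inn
    rw [hJ]
    constructor
    · rintro ⟨u, hu, h1⟩
      have h2 : (fun i => e.symm (v i)) = u := by
        funext i
        have h3 := congrFun h1 i
        rw [Sum.inr.injEq] at h3
        rw [h3, Equiv.symm_apply_apply]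
      rw [h2]
      exact hu
    · intro hu
      exact ⟨_, hu, by simp⟩
  have hL : Linked (inn J) k (e '' W) := by
    rw [hinn]
    exact hW.map e
  obtain ⟨V', J', W', hG', hty, hL', hcard⟩ := hdown k V J _ hG hL
  have := hG'.finite
  have hsat : Φ _ (inn J') := (hΦ.gty hty).2 ((hΦ.inn e hJ).1 hI)
  have hfin := hΦ.fin J' hsat
  have hLfin := hL'.map (Finite.equivFin V')
  have hn' : 5 * k ≤ Nat.card V' := by
    rw [← hL'.1]
    exact Set.ncard_le_card W'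
  have htw := hφ _ _ (by omega) hfin
  have hkw : k ≤ w (Nat.card V') := by
    by_contra hlt
    push Not at hlt
    obtain ⟨D⟩ := TreeDec.mono (k' := k) (by omega) htw
    exact low (by omega) D _ hLfin
  have h1 := hN0 (Nat.card V') (by omega)
  have h2 : E (c + 4) k ≤ E (c + 4) (w (Nat.card V')) := E_mono _ hkw
  have h3 : E (c + 3) k < E (c + 4) k := E_succ_le _ _
  have h4 : E c (k + 2) ≤ E (c + 3) k := by
    rw [← E_add]
    apply E_mono
    have a1 : k < E 1 k := E_succ_le 0 k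
    have a2 : E 1 k < E 2 k := E_succ_le 1 k
    have a3 : E 2 k < E 3 k := E_succ_le 2 k
    omega
  have h5 := hF k
  omega

theorem bounded_tree_sem [Finite S] (w : ℕ → ℕ) (hw : ∀ d, ∀ᶠ n in atTop, E d (w n) ≤ n)
    (Φ : ∀ M : Type, Interp S ar M → Prop) (n₀ q₀ : ℕ) (hΦ : GInv Φ n₀ q₀) (N1 : ℕ)
    (h1 : ∀ (n : ℕ) (I : Interp S ar (Fin n)), N1 ≤ n → Φ _ I → TwLe I (w n)) :
    (∃ L, ∀ (n : ℕ) (I : Interp S ar (Fin n)), 1 ≤ n → Φ _ I → TwLe I L) ∧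
      UltPeriodic {n : ℕ | 1 ≤ n ∧ ∃ I : Interp S ar (Fin n), Φ _ I} := by
  classical
  obtain ⟨k, hk, hnl⟩ := not_linked_sem w hw Φ n₀ q₀ hΦ N1 h1
  refine ⟨⟨6 * k, ?_⟩, ?_⟩
  · intro n I hn hI
    obtain ⟨C, hC⟩ := up I k hk (hnl n I hn hI)
    exact TreeDec.mono (k' := 6 * k + 1) (by omega) hC.treeDec
  · obtain ⟨p, N, hp, hup⟩ := gpump_up (S := S) (ar := ar) n₀ q₀ (6 * k)
    refine ultPeriodic_of_add hp (N := N) (fun n hn hA => ?_)
    obtain ⟨hn1, I, hI⟩ := hA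
    obtain ⟨C, hC⟩ := up I k hk (hnl n I hn1 hI)
    obtain ⟨V, J, e, hG, hJ⟩ := gen_of_dec (by omega) hC
    have hcV : Nat.card V = n := by
      rw [← Nat.card_congr e, Nat.card_fin]
    obtain ⟨V', J', hG', hty, hc'⟩ := hup V J hG (by rw [hcV]; exact hn)
    have := hG'.finite
    have hsat : Φ _ (inn J') := (hΦ.gty hty).2 ((hΦ.inn e hJ).1 hI)
    have hfin := hΦ.fin J' hsat
    rw [hcV] at hc'
    refine ⟨by omega, ?_⟩
    rw [← hc']
    exact ⟨_, hfin⟩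

end Pool.Agent.Helper29.GW
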