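import Pool.Agent.Helper29.GW.GapTW
import Pool.Agent.Helper12.GW.Sat
import Pool.Agent.Helper14.GW.Gap
import Pool.Agent.Helper58.GW.Path
import Pool.Agent.Helper20.Gap.Main

/-!
# The gap theorem for the width of the models of an MSO₂ sentence
-/

set_option autoImplicit false

namespace Pool.Agent.Helper29.GW

open Pool.Agent.Helper20.Spectra Pool.Agent.Helper20.OP Pool.Agent.Helper29.TD
  Pool.Agent.Helper29.TW Pool.Agent.Helper29.CW Filter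

variable {S : Type} {ar : S → ℕ}

theorem bounded_width_g [Finite S] (μ : Width) (φ : GFm S ar 0)
    (hμ : μ = Width.clique → φ.Mon ∧ ∀ s, ar s ≤ 2)
    (w : ℕ → ℕ) (hw : ∀ d, ∀ᶠ n in atTop, E d (w n) ≤ n) (N1 : ℕ)
    (h1 : ∀ (n : ℕ) (I : Interp S ar (Fin n)), N1 ≤ n → GSat I φ → WidthLe μ I (w n)) :
    (∃ L, ∀ (n : ℕ) (I : Interp S ar (Fin n)), 1 ≤ n → GSat I φ → WidthLe μ I L) ∧
      UltPeriodic {n : ℕ | 1 ≤ n ∧ ∃ I : Interp S ar (Fin n), GSat I φ} := by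
  cases μ with
  | path =>
    obtain ⟨n₀, q₀, h⟩ := gsat_geq φ
    exact bounded_path_of_tree_sem (fun w hw Φ n q hΦ N h => bounded_tree_sem w hw Φ n q hΦ N h)
      w hw (fun M I => GSat I φ) n₀ q₀ h N1 h1
  | tree =>
    obtain ⟨n₀, q₀, h⟩ := gsat_geq φ
    exact bounded_tree_sem w hw (fun M I => GSat I φ) n₀ q₀ h N1 h1
  | clique =>
    obtain ⟨hm, har⟩ := hμ rfl
    obtain ⟨n₀, q₀, h⟩ := gsat_meq φ hm
    exact Pool.Agent.Helper14.GW.bounded_clique_sem har w hw (fun M I => GSat I φ) n₀ q₀ h N1 h1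

/-- the gap theorem -/
theorem width_gap_g [Finite S] (μ : Width) (φ : GFm S ar 0)
    (hμ : μ = Width.clique → φ.Mon ∧ ∀ s, ar s ≤ 2) :
    ((∃ L, ∀ (n : ℕ) (I : Interp S ar (Fin n)), 1 ≤ n → GSat I φ → WidthLe μ I L) ∧
      UltPeriodic {n : ℕ | 1 ≤ n ∧ ∃ I : Interp S ar (Fin n), GSat I φ}) ∨
    ∃ d, ∀ N, ∃ n, N ≤ n ∧ ∃ I : Interp S ar (Fin n), GSat I φ ∧
      ∀ t, WidthLe μ I t → n < E d t := by
  classical
  by_contra hcon
  push Not at hcon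
  obtain ⟨hcon1, hcon2⟩ := hcon
  -- for every `d` the models with many elements have small width
  have h0 : ∀ d, ∃ N, ∀ n, N ≤ n → ∃ t, E d t ≤ n ∧
      ∀ I : Interp S ar (Fin n), GSat I φ → WidthLe μ I t := by
    intro d
    obtain ⟨N, hN⟩ := hcon2 d
    refine ⟨N + E d 0, fun n hn => ?_⟩
    have hb : ∀ t, E d t ≤ n → t ≤ n := fun t ht => (Pool.Agent.Helper20.Gap.E_id_le d t).trans ht
    have hs := Nat.findGreatest_spec (P := fun t => E d t ≤ n) (Nat.zero_le n) (by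
      show E d 0 ≤ n
      omega)
    refine ⟨Nat.findGreatest (fun t => E d t ≤ n) n, hs, fun I hI => ?_⟩
    obtain ⟨t, ht1, ht2⟩ := hN n (by omega) I hI
    exact Pool.Agent.Helper20.Gap.WidthLe.mono (Nat.le_findGreatest (hb t ht2) ht2) ht1
  obtain ⟨N1, hN1⟩ := h0 0
  let w : ℕ → ℕ := fun n => sInf {t | ∀ I : Interp S ar (Fin n), GSat I φ → WidthLe μ I t}
  have hw : ∀ d, ∀ᶠ n in atTop, E d (w n) ≤ n := by
    intro d
    obtain ⟨N, hN⟩ := h0 d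
    refine eventually_atTop.2 ⟨N, fun n hn => ?_⟩
    obtain ⟨t, ht1, ht2⟩ := hN n hn
    have ht3 : t ∈ {t | ∀ I : Interp S ar (Fin n), GSat I φ → WidthLe μ I t} := ht2
    exact (E_mono d (Nat.sInf_le ht3)).trans ht1
  have hw1 : ∀ (n : ℕ) (I : Interp S ar (Fin n)), N1 ≤ n → GSat I φ → WidthLe μ I (w n) := by
    intro n I hn hI
    obtain ⟨t, _, ht2⟩ := hN1 n hn
    have h2 : w n ∈ {t | ∀ I : Interp S ar (Fin n), GSat I φ → WidthLe μ I t} :=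
      Nat.sInf_mem ⟨t, ht2⟩
    exact h2 I hI
  obtain ⟨h2, h3⟩ := bounded_width_g μ φ hμ w hw N1 hw1
  exact hcon1 h2 h3

/-- below all iterated logarithms -/
theorem width_tame_g (μ : Width) (w : ℕ → ℕ) (hw : ∀ d, ∀ᶠ n in atTop, E d (w n) ≤ n)
    (A : Set ℕ) (hA : WSpectrum false μ w A) :
    UltPeriodic A ∧ ∃ L, WSpectrum false μ (fun _ => L) A := by
  obtain ⟨S, hS, ar, φ, hm, hμ, h1, h2⟩ := hA
  obtain ⟨⟨L, hL⟩, hp⟩ := bounded_width_g μ φ hμ w hw 1 fun n I hn hI => h1 n I hn hI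
  refine ⟨?_, L, S, hS, ar, φ, hm, hμ, hL, h2⟩
  have h3 : A = {n : ℕ | 1 ≤ n ∧ ∃ I : Interp S ar (Fin n), GSat I φ} := Set.ext h2
  rw [h3]
  exact hp

lemma WSpectrum.weaken {μ : Width} {w : ℕ → ℕ} {A : Set ℕ} (hA : WSpectrum true μ w A) :
    WSpectrum false μ w A := by
  obtain ⟨S, hS, ar, φ, _, hμ, h1, h2⟩ := hA
  exact ⟨S, hS, ar, φ, fun h => Bool.noConfusion h, hμ, h1, h2⟩

end Pool.Agent.Helper29.GW
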