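import Pool.Agent.Helper29.GW.Eq

/-!
# Guarded second-order types of structures with sources are compatible with the operations
-/

set_option autoImplicit false

namespace Pool.Agent.Helper29.GW

open Pool.Agent.Helper20.Spectra Pool.Agent.Helper29.TD Pool.Agent.Helper29.MW

/-! ### Expansions -/

lemma fI_img {S : Type} {ar : S → ℕ} {M N : Type} (f : M → N) (J : Interp S ar M) (C : Set M)
    (R : Interp S ar M) :
    fI (TW.img f J) (f '' C) (TW.img f R) = TW.img f (fI J C R) := by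
  funext s
  rcases s with _ | s | s
  · funext v
    change Fin 1 → N at v
    apply propext
    change v 0 ∈ f '' C ↔ ∃ u : Fin 1 → M, u 0 ∈ C ∧ v = fun i => f (u i)
    constructor
    · rintro ⟨x, hx, hv⟩
      refine ⟨fun _ => x, hx, ?_⟩
      funext i
      rw [Subsingleton.elim i 0, hv]
    · rintro ⟨u, hu, rfl⟩
      exact ⟨u 0, hu, rfl⟩
  · rfl
  · rfl

lemma fI_or {S : Type} {ar : S → ℕ} {M : Type} (J₁ J₂ : Interp S ar M) (A₁ A₂ : Set M)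
    (R₁ R₂ : Interp S ar M) :
    fI (fun s v => J₁ s v ∨ J₂ s v) (A₁ ∪ A₂) (fun s v => R₁ s v ∨ R₂ s v) =
      fun s v => fI J₁ A₁ R₁ s v ∨ fI J₂ A₂ R₂ s v := by
  funext s
  rcases s with _ | s | s
  · rfl
  · rfl
  · rfl

lemma fI_jn {S : Type} {ar : S → ℕ} {K : ℕ} {V₁ V₂ : Type} (J₁ R₁ : Interp S ar (Fin K ⊕ V₁))
    (J₂ R₂ : Interp S ar (Fin K ⊕ V₂)) (A₁ : Set (Fin K ⊕ V₁)) (A₂ : Set (Fin K ⊕ V₂)) :
    fI (TW.jn J₁ J₂) (Sum.map id Sum.inl '' A₁ ∪ Sum.map id Sum.inr '' A₂) (TW.jn R₁ R₂) =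
      TW.jn (fI J₁ A₁ R₁) (fI J₂ A₂ R₂) := by
  have h1 := fI_or (TW.img (Sum.map id Sum.inl) J₁ : Interp S ar (Fin K ⊕ (V₁ ⊕ V₂)))
    (TW.img (Sum.map id Sum.inr) J₂) (Sum.map id Sum.inl '' A₁) (Sum.map id Sum.inr '' A₂)
    (TW.img (Sum.map id Sum.inl) R₁) (TW.img (Sum.map id Sum.inr) R₂)
  rw [fI_img, fI_img] at h1
  exact h1

lemma gty_succ {n q : ℕ} {S : Type} {ar : S → ℕ} {K : ℕ} {V V' : Type} {B B' : Finset (Fin K)}
    {J : Interp S ar (Fin K ⊕ V)} {J' : Interp S ar (Fin K ⊕ V')} :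
    gty (n + 1) q B J = gty (n + 1) q B' J' ↔
      (∀ c : Set (Fin K ⊕ V) × Interp S ar (Fin K ⊕ V),
        (c.1 ⊆ TW.mk (↑B) Set.univ ∧ SubI c.2 J) →
        ∃ c' : Set (Fin K ⊕ V') × Interp S ar (Fin K ⊕ V'),
          (c'.1 ⊆ TW.mk (↑B') Set.univ ∧ SubI c'.2 J') ∧
          gty n q B (fI J c.1 c.2) = gty n q B' (fI J' c'.1 c'.2)) ∧
      ∀ c' : Set (Fin K ⊕ V') × Interp S ar (Fin K ⊕ V'),
        (c'.1 ⊆ TW.mk (↑B') Set.univ ∧ SubI c'.2 J') →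
        ∃ c : Set (Fin K ⊕ V) × Interp S ar (Fin K ⊕ V),
          (c.1 ⊆ TW.mk (↑B) Set.univ ∧ SubI c.2 J) ∧
          gty n q B (fI J c.1 c.2) = gty n q B' (fI J' c'.1 c'.2) :=
  set_eq_iff (fun c : Set (Fin K ⊕ V) × Interp S ar (Fin K ⊕ V) => gty n q B (fI J c.1 c.2))
    fun c' : Set (Fin K ⊕ V') × Interp S ar (Fin K ⊕ V') => gty n q B' (fI J' c'.1 c'.2)

/-- the subrelation on the first part -/
lemma split_rel {S : Type} {ar : S → ℕ} {K : ℕ} {V₁ V₂ : Type} {J₁ : Interp S ar (Fin K ⊕ V₁)}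
    {J₂ : Interp S ar (Fin K ⊕ V₂)} {R : Interp S ar (Fin K ⊕ (V₁ ⊕ V₂))}
    (hR : SubI R (TW.jn J₁ J₂)) :
    R = TW.jn (fun s u => J₁ s u ∧ R s (fun i => Sum.map id Sum.inl (u i)))
      (fun s u => J₂ s u ∧ R s (fun i => Sum.map id Sum.inr (u i))) := by
  funext s v
  apply propext
  constructor
  · intro h
    rcases hR s v h with ⟨u, hu, hv⟩ | ⟨u, hu, hv⟩
    · refine Or.inl ⟨u, ⟨hu, ?_⟩, hv⟩
      rw [← hv]
      exact h
    · refine Or.inr ⟨u, ⟨hu, ?_⟩, hv⟩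
      rw [← hv]
      exact h
  · rintro (⟨u, ⟨-, h⟩, rfl⟩ | ⟨u, ⟨-, h⟩, rfl⟩)
    · exact h
    · exact h

lemma sub_jn {S : Type} {ar : S → ℕ} {K : ℕ} {V₁ V₂ : Type} {J₁ R₁ : Interp S ar (Fin K ⊕ V₁)}
    {J₂ R₂ : Interp S ar (Fin K ⊕ V₂)} (h₁ : SubI R₁ J₁) (h₂ : SubI R₂ J₂) :
    SubI (TW.jn R₁ R₂) (TW.jn J₁ J₂) := by
  rintro s v (⟨u, hu, rfl⟩ | ⟨u, hu, rfl⟩)
  · exact Or.inl ⟨u, h₁ _ _ hu, rfl⟩
  · exact Or.inr ⟨u, h₂ _ _ hu, rfl⟩

theorem gty_jn (n q : ℕ) : ∀ {S : Type} {ar : S → ℕ} {K : ℕ} {V₁ V₂ V₁' V₂' : Type}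
    {B₁ B₂ B₁' B₂' : Finset (Fin K)}
    {J₁ : Interp S ar (Fin K ⊕ V₁)} {J₁' : Interp S ar (Fin K ⊕ V₁')}
    {J₂ : Interp S ar (Fin K ⊕ V₂)} {J₂' : Interp S ar (Fin K ⊕ V₂')},
    gty n q B₁ J₁ = gty n q B₁' J₁' → gty n q B₂ J₂ = gty n q B₂' J₂' →
    gty n q (B₁ ∪ B₂) (TW.jn J₁ J₂) = gty n q (B₁' ∪ B₂') (TW.jn J₁' J₂') := by
  induction n with
  | zero =>
    intro S ar K V₁ V₂ V₁' V₂' B₁ B₂ B₁' B₂' J₁ J₁' J₂ J₂' h₁ h₂
    exact TW.ty_jn q h₁ h₂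
  | succ n ih =>
    have key : ∀ {S : Type} {ar : S → ℕ} {K : ℕ} {V₁ V₂ V₁' V₂' : Type}
        {B₁ B₂ B₁' B₂' : Finset (Fin K)}
        {J₁ : Interp S ar (Fin K ⊕ V₁)} {J₁' : Interp S ar (Fin K ⊕ V₁')}
        {J₂ : Interp S ar (Fin K ⊕ V₂)} {J₂' : Interp S ar (Fin K ⊕ V₂')},
        gty (n + 1) q B₁ J₁ = gty (n + 1) q B₁' J₁' → gty (n + 1) q B₂ J₂ = gty (n + 1) q B₂' J₂' →
        ∀ c : Set (Fin K ⊕ (V₁ ⊕ V₂)) × Interp S ar (Fin K ⊕ (V₁ ⊕ V₂)),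
          (c.1 ⊆ TW.mk (↑(B₁ ∪ B₂)) Set.univ ∧ SubI c.2 (TW.jn J₁ J₂)) →
          ∃ c' : Set (Fin K ⊕ (V₁' ⊕ V₂')) × Interp S ar (Fin K ⊕ (V₁' ⊕ V₂')),
            (c'.1 ⊆ TW.mk (↑(B₁' ∪ B₂')) Set.univ ∧ SubI c'.2 (TW.jn J₁' J₂')) ∧
            gty n q (B₁ ∪ B₂) (fI (TW.jn J₁ J₂) c.1 c.2) =
              gty n q (B₁' ∪ B₂') (fI (TW.jn J₁' J₂') c'.1 c'.2) := by
      rintro S ar K V₁ V₂ V₁' V₂' B₁ B₂ B₁' B₂' J₁ J₁' J₂ J₂' h₁ h₂ ⟨A, R⟩ ⟨hA, hR⟩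
      obtain ⟨⟨A₁', R₁'⟩, ⟨hA₁, hR₁⟩, e₁⟩ := (gty_succ.1 h₁).1
        (Sum.map id Sum.inl ⁻¹' A ∩ TW.mk (↑B₁) Set.univ,
          fun s u => J₁ s u ∧ R s (fun i => Sum.map id Sum.inl (u i)))
        ⟨Set.inter_subset_right, fun _ _ h => h.1⟩
      obtain ⟨⟨A₂', R₂'⟩, ⟨hA₂, hR₂⟩, e₂⟩ := (gty_succ.1 h₂).1
        (Sum.map id Sum.inr ⁻¹' A ∩ TW.mk (↑B₂) Set.univ,
          fun s u => J₂ s u ∧ R s (fun i => Sum.map id Sum.inr (u i)))
        ⟨Set.inter_subset_right, fun _ _ h => h.1⟩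
      refine ⟨(Sum.map id Sum.inl '' A₁' ∪ Sum.map id Sum.inr '' A₂', TW.jn R₁' R₂'),
        ⟨join_set hA₁ hA₂, sub_jn hR₁ hR₂⟩, ?_⟩
      have h3 : fI (TW.jn J₁ J₂) A R =
          TW.jn (fI J₁ (Sum.map id Sum.inl ⁻¹' A ∩ TW.mk (↑B₁) Set.univ)
            (fun s u => J₁ s u ∧ R s (fun i => Sum.map id Sum.inl (u i))))
          (fI J₂ (Sum.map id Sum.inr ⁻¹' A ∩ TW.mk (↑B₂) Set.univ)
            (fun s u => J₂ s u ∧ R s (fun i => Sum.map id Sum.inr (u i)))) := by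
        rw [← fI_jn, ← split_set hA, ← split_rel hR]
      exact (congrArg (gty n q (B₁ ∪ B₂)) h3).trans ((ih e₁ e₂).trans
        (congrArg (gty n q (B₁' ∪ B₂')) (fI_jn J₁' R₁' J₂' R₂' A₁' A₂').symm))
    intro S ar K V₁ V₂ V₁' V₂' B₁ B₂ B₁' B₂' J₁ J₁' J₂ J₂' h₁ h₂
    exact gty_succ.2 ⟨key h₁ h₂, fun A' hA' => (key h₁.symm h₂.symm A' hA').imp
      fun A hA => ⟨hA.1, hA.2.symm⟩⟩

section

variable {K : ℕ} {V : Type}

lemma fg_inj (a : Fin K) : Function.Injective (TW.fg a : Fin K ⊕ V → Fin K ⊕ Option V) := by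
  have hl : ∀ b : Fin K, (TW.fg a (Sum.inl b) : Fin K ⊕ Option V) =
      if b = a then Sum.inr none else Sum.inl b := fun _ => rfl
  have hr : ∀ x : V, (TW.fg a (Sum.inr x) : Fin K ⊕ Option V) = Sum.inr (some x) := fun _ => rfl
  rintro (b | x) (c | y) h
  · rw [hl, hl] at h
    split_ifs at h with h1 h2 h2
    · rw [h1, h2]
    · rw [Sum.inl.inj h]
  · rw [hl, hr] at h
    split_ifs at h
    exact absurd (Sum.inr.inj h) (by simp)
  · rw [hl, hr] at h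
    split_ifs at h
    exact absurd (Sum.inr.inj h) (by simp)
  · rw [hr, hr] at h
    rw [Option.some.inj (Sum.inr.inj h)]

lemma fg_rel {S : Type} {ar : S → ℕ} (a : Fin K) {J : Interp S ar (Fin K ⊕ V)}
    {R : Interp S ar (Fin K ⊕ Option V)} (hR : SubI R (TW.img (TW.fg a) J)) :
    R = TW.img (TW.fg a) (fun s u => J s u ∧ R s (fun i => TW.fg a (u i))) := by
  funext s v
  apply propext
  constructor
  · intro h
    obtain ⟨u, hu, hv⟩ := hR s v h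
    refine ⟨u, ⟨hu, ?_⟩, hv⟩
    rw [← hv]
    exact h
  · rintro ⟨u, ⟨-, h⟩, rfl⟩
    exact h

lemma sub_img {S : Type} {ar : S → ℕ} {M N : Type} {f : M → N} {R J : Interp S ar M}
    (h : SubI R J) : SubI (TW.img f R) (TW.img f J) := by
  rintro s v ⟨u, hu, rfl⟩
  exact ⟨u, h _ _ hu, rfl⟩

end

theorem gty_fg (n q : ℕ) : ∀ {S : Type} {ar : S → ℕ} {K : ℕ} {V V' : Type} (a : Fin K)
    {B B' : Finset (Fin K)} (_ : a ∈ B) (_ : a ∈ B')
    {J : Interp S ar (Fin K ⊕ V)} {J' : Interp S ar (Fin K ⊕ V')},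
    gty n q B J = gty n q B' J' →
    gty n q (B.erase a) (TW.img (TW.fg a) J) = gty n q (B'.erase a) (TW.img (TW.fg a) J') := by
  induction n with
  | zero =>
    intro S ar K V V' a B B' _ _ J J' h
    exact TW.ty_fg q a h
  | succ n ih =>
    have key : ∀ {S : Type} {ar : S → ℕ} {K : ℕ} {V V' : Type} (a : Fin K)
        {B B' : Finset (Fin K)} (_ : a ∈ B) (_ : a ∈ B')
        {J : Interp S ar (Fin K ⊕ V)} {J' : Interp S ar (Fin K ⊕ V')},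
        gty (n + 1) q B J = gty (n + 1) q B' J' →
        ∀ c : Set (Fin K ⊕ Option V) × Interp S ar (Fin K ⊕ Option V),
          (c.1 ⊆ TW.mk (↑(B.erase a)) Set.univ ∧ SubI c.2 (TW.img (TW.fg a) J)) →
          ∃ c' : Set (Fin K ⊕ Option V') × Interp S ar (Fin K ⊕ Option V'),
            (c'.1 ⊆ TW.mk (↑(B'.erase a)) Set.univ ∧ SubI c'.2 (TW.img (TW.fg a) J')) ∧
            gty n q (B.erase a) (fI (TW.img (TW.fg a) J) c.1 c.2) =
              gty n q (B'.erase a) (fI (TW.img (TW.fg a) J') c'.1 c'.2) := by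
      rintro S ar K V V' a B B' ha ha' J J' h ⟨A, R⟩ ⟨hA, hR⟩
      obtain ⟨⟨C', R'⟩, ⟨hC', hR'⟩, e⟩ := (gty_succ.1 h).1 (TW.fg a ⁻¹' A,
        fun s u => J s u ∧ R s (fun i => TW.fg a (u i))) ⟨fg_pre a ha hA, fun _ _ h => h.1⟩
      refine ⟨(TW.fg a '' C', TW.img (TW.fg a) R'), ⟨fg_img a hC', sub_img hR'⟩, ?_⟩
      have h3 : fI (TW.img (TW.fg a) J) A R = TW.img (TW.fg a) (fI J (TW.fg a ⁻¹' A)
          (fun s u => J s u ∧ R s (fun i => TW.fg a (u i)))) := by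
        rw [← fI_img, fg_split a hA, ← fg_rel a hR]
      exact (congrArg (gty n q (B.erase a)) h3).trans ((ih a ha ha' e).trans
        (congrArg (gty n q (B'.erase a)) (fI_img (TW.fg a) J' C' R').symm))
    intro S ar K V V' a B B' ha ha' J J' h
    exact gty_succ.2 ⟨key a ha ha' h, fun A' hA' => (key a ha' ha h.symm A' hA').imp
      fun A hA => ⟨hA.1, hA.2.symm⟩⟩

/-! ### The number of types -/

instance finite_GTy (n : ℕ) : ∀ {S : Type} [Finite S] {ar : S → ℕ} (q K : ℕ),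
    Finite (GTy n S ar q K) := by
  induction n with
  | zero =>
    intro S _ ar q K
    exact finite_Ty q K
  | succ n ih =>
    intro S _ ar q K
    have := ih (S := Option (S ⊕ S)) (ar := fAr ar) q K
    change Finite (Set (GTy n (Option (S ⊕ S)) (fAr ar) q K))
    infer_instance

theorem card_GTy (n q : ℕ) : ∀ (S : Type) [Finite S] (ar : S → ℕ),
    Tow (fun K => Nat.card (GTy n S ar q K)) := by
  induction n with
  | zero =>
    intro S _ ar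
    exact card_Ty S ar q
  | succ n ih =>
    intro S _ ar
    have h1 : (fun K => Nat.card (GTy (n + 1) S ar q K)) =
        fun K => 2 ^ Nat.card (GTy n (Option (S ⊕ S)) (fAr ar) q K) := by
      funext K
      exact card_set (GTy n (Option (S ⊕ S)) (fAr ar) q K)
    rw [h1]
    exact (ih (Option (S ⊕ S)) (fAr ar)).two_pow

/-! ### Types and the game on the inner elements -/

lemma inn_fI {S : Type} {ar : S → ℕ} {K : ℕ} {V : Type} (J : Interp S ar (Fin K ⊕ V))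
    (A : Set (Fin K ⊕ V)) (R : Interp S ar (Fin K ⊕ V)) :
    TW.inn (fI J A R) = fI (TW.inn J) (Sum.inr ⁻¹' A) (TW.inn R) := by
  funext s
  rcases s with _ | s | s
  · rfl
  · rfl
  · rfl

theorem geq_of_gty (n q : ℕ) : ∀ {S : Type} {ar : S → ℕ} {K : ℕ} {V V' : Type}
    {B B' : Finset (Fin K)} {J : Interp S ar (Fin K ⊕ V)} {J' : Interp S ar (Fin K ⊕ V')},
    gty n q B J = gty n q B' J' → GEq n q (TW.inn J) (TW.inn J') := by
  induction n with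
  | zero =>
    intro S ar K V V' B B' J J' h
    have h1 : TW.ty q J = TW.ty q J' := h
    have h2 := (tp_eq_iff q _ _).1 h1
    exact BF.anti (Set.empty_subset _) (bf_comap Sum.inr_injective Sum.inr_injective q h2)
  | succ n ih =>
    have key : ∀ {S : Type} {ar : S → ℕ} {K : ℕ} {V V' : Type}
        {B B' : Finset (Fin K)} {J : Interp S ar (Fin K ⊕ V)} {J' : Interp S ar (Fin K ⊕ V')},
        gty (n + 1) q B J = gty (n + 1) q B' J' → ∀ (A : Set V) (R : Interp S ar V),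
          SubI R (TW.inn J) → ∃ (A' : Set V') (R' : Interp S ar V'), SubI R' (TW.inn J') ∧
          GEq n q (fI (TW.inn J) A R) (fI (TW.inn J') A' R') := by
      intro S ar K V V' B B' J J' h A R hR
      obtain ⟨⟨C, T⟩, ⟨-, hT⟩, e⟩ := (gty_succ.1 h).1 (Sum.inr '' A, TW.img Sum.inr R) ⟨by
        rintro _ ⟨x, -, rfl⟩
        exact trivial, by
        rintro s v ⟨u, hu, rfl⟩
        exact hR s u hu⟩
      have h1 := ih e
      rw [inn_fI, inn_fI] at h1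
      have h2 : TW.inn (TW.img Sum.inr R : Interp S ar (Fin K ⊕ V)) = R := by
        funext s v
        apply propext
        constructor
        · rintro ⟨u, hu, hv⟩
          have h3 : v = u := funext fun i => Sum.inr_injective (congrFun hv i)
          rw [h3]
          exact hu
        · intro hv
          exact ⟨v, hv, rfl⟩
      dsimp only at h1
      rw [Set.preimage_image_eq _ Sum.inr_injective, h2] at h1
      exact ⟨_, _, fun s v hv => hT s _ hv, h1⟩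
    intro S ar K V V' B B' J J' h
    refine ⟨key h, fun A' R' hR' => ?_⟩
    obtain ⟨A, R, hR, h1⟩ := key h.symm A' R' hR'
    exact ⟨A, R, hR, GEq.symm n q h1⟩

end Pool.Agent.Helper29.GW
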